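import Pool.Agent.Lib.MP_17d4d1_pr.Pair

set_option autoImplicit false

/-!
# Statements of the modules (MP_17d4d1_pr, second hand-in)

Notation: `Ex w u` is the expectation of `u` for the weights `w`.
-/

namespace Pool.Agent.Lib.MP_17d4d1_pr.S

open Finset Pool.Agent.Lib.MP_17d4d1_pr

/-- `w` is a probability weight with the FKG lattice condition. -/
structure FKGW {X : Type} [Fintype X] [DecidableEq X] (w : Finset X → ℝ) : Prop where
  nn : ∀ A, 0 ≤ w A
  sum : ∑ A, w A = 1
  lsm : ∀ A B, w A * w B ≤ w (A ⊓ B) * w (A ⊔ B)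

/-- Nonnegative nondecreasing. -/
structure Inc {X : Type} [DecidableEq X] (f : Finset X → ℝ) : Prop where
  nn : ∀ A, 0 ≤ f A
  mono : Monotone f

/-- Indicator of an up-set. -/
structure Ind {X : Type} [DecidableEq X] (f : Finset X → ℝ) : Prop where
  val : ∀ A, f A = 0 ∨ f A = 1
  mono : Monotone f

/-- The first functional. -/
def US {X : Type} [Fintype X] (w f g h : Finset X → ℝ) : ℝ :=
  (1 + Ex w h) * Ex w (f * g * h) - Ex w h * Ex w (f * g) - Ex w (f * h) * Ex w (g * h)

/-- The second functional. -/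
def LS {X : Type} [Fintype X] (w f g h : Finset X → ℝ) : ℝ :=
  Ex w (f * (1 - h)) * Ex w (g * (1 - h))
    - (1 - Ex w h) * (Ex w f * Ex w g - Ex w (f * g * h))

/-- The functional of the problem for three functions. -/
def E3 {X : Type} [Fintype X] (w f g h : Finset X → ℝ) : ℝ :=
  2 * Ex w (f * g * h) - Ex w (f * g) * Ex w h - Ex w (f * h) * Ex w g - Ex w (g * h) * Ex w f
    + Ex w f * Ex w g * Ex w h

/-- Product weights. -/
def pw {κ : Type} [Fintype κ] [DecidableEq κ] (r : κ → ℝ) (S : Finset κ) : ℝ :=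
  ∏ i, if i ∈ S then r i else 1 - r i

/-- The indicator of the sets that contain at least two elements of `Y`. -/
def thr {X : Type} [DecidableEq X] (Y : Finset X) (A : Finset X) : ℝ :=
  if 2 ≤ (A ∩ Y).card then 1 else 0

/-- WORDS. The inequality for complementary pairs of sets. -/
def WORDS_S : Prop := ∀ (α : Type) [Fintype α] [DecidableEq α] (f g h : Finset α → ℝ),
  Ind f → Ind g → Ind h →
  0 ≤ ∑ x : Finset α, (f x * g x * h x * (1 + h xᶜ) - f x * g x * h xᶜ
    - f x * h x * (g xᶜ * h xᶜ))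

/-- PROD. The first functional is nonnegative for product weights. -/
def PROD_S : Prop := ∀ (κ : Type) [Fintype κ] [DecidableEq κ] (r : κ → ℝ),
  (∀ i, 0 ≤ r i) → (∀ i, r i ≤ 1) → ∀ f g h : Finset κ → ℝ, Ind f → Ind g → Ind h →
  0 ≤ US (pw r) f g h

/-- BITS. Independent bits whose initial disjunctions have prescribed probabilities. -/
def BITS_S : Prop := ∀ R : Finset ℝ, (∀ t ∈ R, 0 < t) → (∀ t ∈ R, t < 1) →
  ∃ r : ℝ → ℝ, (∀ t, 0 ≤ r t) ∧ (∀ t, r t ≤ 1) ∧
    ∀ t ∈ R, ∏ s ∈ R.filter (· ≤ t), (1 - r s) = 1 - t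

/-- REPR. Every FKG weight is the image of product weights under a monotone map. -/
def REPR_S : Prop := ∀ (X : Type) [Fintype X] [DecidableEq X] (w : Finset X → ℝ), FKGW w →
  ∃ (κ : Type) (_ : Fintype κ) (_ : DecidableEq κ) (r : κ → ℝ) (Φ : Finset κ → Finset X),
    (∀ i, 0 ≤ r i) ∧ (∀ i, r i ≤ 1) ∧ Monotone Φ ∧
    ∀ u : Finset X → ℝ, Ex w u = Ex (pw r) (u ∘ Φ)

/-- USTAR. The first functional is nonnegative for all FKG weights. -/
def USTAR_S : Prop := ∀ (X : Type) [Fintype X] [DecidableEq X] (w f g h : Finset X → ℝ),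
  FKGW w → Inc f → Inc g → Ind h → 0 ≤ US w f g h

/-- STAR0. The second functional, `thr`, weights that live on the subsets of `Y`. -/
def STAR0_S : Prop := ∀ (X : Type) [Fintype X] [DecidableEq X] (Y : Finset X)
  (w f g : Finset X → ℝ), FKGW w → (∀ A, w A ≠ 0 → A ⊆ Y) → Ind f → Ind g →
  0 ≤ LS w f g (thr Y)

/-- MARG. Passing to the marginal on the subsets of `Y`. -/
def MARG_S : Prop := ∀ (X : Type) [Fintype X] [DecidableEq X] (Y : Finset X)
  (w f g h : Finset X → ℝ), FKGW w → Inc f → Inc g → Ind h → (∀ A, h (A ∩ Y) = h A) →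
  ∃ w' f' g' : Finset X → ℝ, FKGW w' ∧ (∀ A, w' A ≠ 0 → A ⊆ Y) ∧ Inc f' ∧ Inc g' ∧
    LS w' f' g' h ≤ LS w f g h

/-- STAR. The second functional, `thr`, all FKG weights. -/
def STAR_S : Prop := ∀ (X : Type) [Fintype X] [DecidableEq X] (Y : Finset X)
  (w f g : Finset X → ℝ), FKGW w → Inc f → Inc g → 0 ≤ LS w f g (thr Y)

/-- The class of third functions. -/
inductive Cls {X : Type} [DecidableEq X] : (Finset X → ℝ) → Prop
  | const (c : ℝ) : 0 ≤ c → Cls (fun _ => c)
  | two (Y : Finset X) : Cls (thr Y)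
  | add (u v : Finset X → ℝ) : Cls u → Cls v → Cls (u + v)
  | mul (k u : Finset X → ℝ) : (∀ A, 0 ≤ k A) → Monotone k →
      (∀ A B, k A * k B ≤ k (A ∩ B) * k (A ∪ B)) → Cls u → Cls (k * u)
  | or (v : X) (c : ℝ) (u : Finset X → ℝ) : Cls u → (∀ A, u A ≤ c) →
      Cls (fun A => if v ∈ A then c else u A)

/-- CLS. The functional `E3` is nonnegative if one function is in the class. -/
def CLS_S : Prop := ∀ (X : Type) [Fintype X] [DecidableEq X] (w f g h : Finset X → ℝ),
  FKGW w → Inc f → Inc g → Cls h → 0 ≤ E3 w f g h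

/-- THREE. An indicator of an up-set that depends on at most three elements is in the class. -/
def THREE_S : Prop := ∀ (X : Type) [Fintype X] [DecidableEq X] (Y : Finset X) (h : Finset X → ℝ),
  Y.card ≤ 3 → Ind h → (∀ A, h (A ∩ Y) = h A) → Cls h

/-- EN3. The functional of the problem for three functions. -/
def EN3_S : Prop := ∀ (X : Type) [Fintype X] [DecidableEq X] (ι : Type) [DecidableEq ι]
  (w : Finset X → ℝ) (F : ι → Finset X → ℝ) (a b c : ι), ∑ A, w A = 1 → a ≠ b → a ≠ c → b ≠ c →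
  En w F {a, b, c} = E3 w (F a) (F b) (F c)

end Pool.Agent.Lib.MP_17d4d1_pr.S
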